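/-
helper20. MAD: Mader's conjecture on subdivisions of transitive tournaments (MP_83008e_co, S09809).
Definitions and statements of the modules. Page: K_MAD_helper20.md.
-/
import Pool.Agent.H74.MRW.Def

set_option autoImplicit false

namespace Pool.MAD

open Finset
open scoped Classical

/-- `cnt y w`: the number of ways to find `y` as a subsequence of `w` -/
noncomputable def cnt {V : Type} : List V → List V → ℝ
  | [], _ => 1
  | _ :: _, [] => 0
  | y :: ys, x :: xs => cnt (y :: ys) xs + (if x = y then cnt ys xs else 0)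

/-- `Wk N B T u`: the maximal walks from `u` in the region `B` with horizon `T` (the start is not
listed; the walk stops at the exit from `B` or at time `T`) -/
noncomputable def Wk {V : Type} (N : V → Finset V) (B : Finset V) : ℕ → V → Finset (List V)
  | 0, _ => {[]}
  | T + 1, u => (N u).biUnion fun w =>
      (if w ∈ B then Wk N B T w else {[]}).image (fun l => w :: l)

/-- the end of the walk `w` from `u` -/
def lst {V : Type} : V → List V → V
  | u, [] => u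
  | _, x :: xs => lst x xs

/-- plan: a probability measure on `W` -/
structure Pln {V : Type} (W : Finset (List V)) (P : List V → ℝ) : Prop where
  nn : ∀ w, 0 ≤ P w
  sup : ∀ w, w ∉ W → P w = 0
  tot : ∑ w ∈ W, P w = 1

/-- expected number of occurrences of the chain `y` -/
noncomputable def cv {V : Type} (W : Finset (List V)) (P : List V → ℝ) (y : List V) : ℝ :=
  ∑ w ∈ W, P w * cnt y w

/-- chains of length `1, .., n` -/
noncomputable def ch (V : Type) [Fintype V] (n : ℕ) : Finset (List V) :=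
  ((List.finite_length_le V n).toFinset).filter (fun y => y ≠ [])

/-- energy -/
noncomputable def En {V : Type} [Fintype V] (n : ℕ) (A : ℝ) (f : List V → ℝ) : ℝ :=
  ∑ y ∈ ch V n, A ^ (y.length - 1) * f y ^ 2

/-- norm -/
noncomputable def nm {V : Type} [Fintype V] (n : ℕ) (A : ℝ) (f : List V → ℝ) : ℝ :=
  Real.sqrt (En n A f)

/-- plan of minimal energy -/
def MinP {V : Type} [Fintype V] (n : ℕ) (A : ℝ) (W : Finset (List V)) (P : List V → ℝ) : Prop :=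
  Pln W P ∧ ∀ P' : List V → ℝ, Pln W P' → En n A (cv W P) ≤ En n A (cv W P')

/-- a chosen plan of minimal energy -/
noncomputable def mp {V : Type} [Fintype V] (n : ℕ) (A : ℝ) (W : Finset (List V)) :
    List V → ℝ :=
  Classical.epsilon (MinP n A W)

/-- the chain numbers of the minimal plan, `0` outside of `B` -/
noncomputable def mv {V : Type} [Fintype V] (N : V → Finset V) (n : ℕ) (A : ℝ) (B : Finset V)
    (T : ℕ) (u : V) : List V → ℝ :=
  if u ∈ B then cv (Wk N B T u) (mp n A (Wk N B T u)) else fun _ => 0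

/-- the points of `B` whose minimal chain numbers are close to those of `v` -/
noncomputable def Ug {V : Type} [Fintype V] (N : V → Finset V) (n : ℕ) (A : ℝ) (B : Finset V)
    (T : ℕ) (v : V) (g : ℝ) : Finset V :=
  B.filter (fun z => nm n A (fun y => mv N n A B T z y - mv N n A B T v y) ≤
    g * nm n A (mv N n A B T v))

/-- `α` is the list of the interior points of a walk from `u` to `v` -/
def Cn {V : Type} (N : V → Finset V) : V → List V → V → Prop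
  | u, [], v => v ∈ N u
  | u, x :: xs, v => x ∈ N u ∧ Cn N x xs v

/-- low resistance from `u` to `v` -/
def Low {V : Type} [Fintype V] (N : V → Finset V) (ε : ℝ) (u v : V) : Prop :=
  ∃ (ι : Type) (S : Finset ι) (p : ι → ℝ) (α : ι → List V), (∀ s ∈ S, 0 ≤ p s) ∧
    ∑ s ∈ S, p s = 1 ∧ (∀ s ∈ S, Cn N u (α s) v) ∧
    ∑ x : V, (∑ s ∈ S, p s * cnt [x] (α s)) ^ 2 ≤ ε

/-! ### the modules -/

/-- CNT: counting of subsequences -/
def CNTStmt : Prop :=
  ∀ (V : Type) [Fintype V],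
    (∀ y w : List V, 0 ≤ cnt y w) ∧
    (∀ y w w' : List V, cnt y (w ++ w') =
      ∑ i ∈ range (y.length + 1), cnt (y.take i) w * cnt (y.drop i) w') ∧
    (∀ y w : List V, w.length < y.length → cnt y w = 0) ∧
    (∀ (y w : List V) (s : ℕ), cnt y (w.take s) ≤ cnt y w) ∧
    (∀ (y w : List V) (x : V), x ∈ y → x ∉ w → cnt y w = 0) ∧
    (∀ (w : List V) (x : V), x ∈ w → 1 ≤ cnt [x] w) ∧
    (∀ w : List V, ∑ x : V, cnt [x] w = w.length)

/-- WLK: the sets of walks -/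
def WLKStmt : Prop :=
  ∀ (V : Type) [Fintype V] (N : V → Finset V), (∀ x, (N x).Nonempty) →
    (∀ (B : Finset V) (T : ℕ) (u : V), (Wk N B T u).Nonempty) ∧
    (∀ (B : Finset V) (T : ℕ) (u : V), ∀ w ∈ Wk N B T u, w.length ≤ T) ∧
    (∀ (B : Finset V) (T s : ℕ) (u : V), s ≤ T → ∀ w ∈ Wk N B T u, w.take s ∈ Wk N B s u) ∧
    (∀ (B' B : Finset V) (T' T : ℕ) (u : V), B' ⊆ B → T' ≤ T → u ∈ B' →
      ∀ w ∈ Wk N B' T' u,
        (lst u w ∈ B → ∀ w' ∈ Wk N B (T - w.length) (lst u w), w ++ w' ∈ Wk N B T u) ∧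
        (lst u w ∉ B → w ∈ Wk N B T u)) ∧
    (∀ (B : Finset V) (T : ℕ) (u : V), ∀ w ∈ Wk N B T u, ∀ x ∈ w, x ∈ B ∨ x = lst u w) ∧
    (∀ (B : Finset V) (T : ℕ) (u : V), u ∈ B → ∀ w ∈ Wk N B T u, w.length < T → lst u w ∉ B) ∧
    (∀ (T : ℕ) (u : V), ∀ w ∈ Wk N univ T u, w.length = T)

/-- HIL: the norm -/
def HILStmt : Prop :=
  ∀ (V : Type) [Fintype V] (n : ℕ) (A : ℝ), 0 ≤ A →
    (∀ f : List V → ℝ, 0 ≤ En n A f) ∧
    (∀ f g : List V → ℝ, nm n A (fun y => f y + g y) ≤ nm n A f + nm n A g) ∧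
    (∀ f g : List V → ℝ, nm n A (fun y => f y - g y) ≤ nm n A f + nm n A g) ∧
    (∀ f g : List V → ℝ, nm n A (fun y => f y - g y) = nm n A (fun y => g y - f y)) ∧
    (∀ (c : ℝ) (f : List V → ℝ), nm n A (fun y => c * f y) = |c| * nm n A f) ∧
    (∀ f g : List V → ℝ, En n A (fun y => f y - g y) + En n A (fun y => f y + g y) =
      2 * En n A f + 2 * En n A g) ∧
    (∀ (ι : Type) (S : Finset ι) (q : ι → ℝ) (f : ι → List V → ℝ), (∀ i ∈ S, 0 ≤ q i) →
      nm n A (fun y => ∑ i ∈ S, q i * f i y) ≤ ∑ i ∈ S, q i * nm n A (f i)) ∧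
    (∀ (ι : Type) (S : Finset ι) (q : ι → ℝ) (f : ι → List V → ℝ), ∑ i ∈ S, q i = 1 →
      ∑ i ∈ S, q i * En n A (fun y => f i y - ∑ j ∈ S, q j * f j y) =
        ∑ i ∈ S, q i * En n A (f i) - En n A (fun y => ∑ j ∈ S, q j * f j y)) ∧
    (∀ f g : List V → ℝ, (∀ y, 0 ≤ g y) → (∀ y, g y ≤ f y) →
      En n A (fun y => f y - g y) ≤ En n A f - En n A g) ∧
    (∀ (A' : ℝ) (f : List V → ℝ), A ≤ A' → En n A f ≤ En n A' f)

/-- MIN: a plan of minimal energy exists -/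
def MINStmt : Prop :=
  ∀ (V : Type) [Fintype V] (n : ℕ) (A : ℝ) (W : Finset (List V)), 0 ≤ A → W.Nonempty →
    MinP n A W (mp n A W)

/-- MON: convexity and monotonicity in the horizon -/
def MONStmt : Prop :=
  ∀ (V : Type) [Fintype V] (N : V → Finset V) (n : ℕ) (A : ℝ) (B : Finset V) (u : V),
    (∀ x, (N x).Nonempty) → 0 ≤ A → u ∈ B →
    (∀ (T : ℕ) (C : List V → ℝ), Pln (Wk N B T u) C →
      En n A (fun y => cv (Wk N B T u) C y - mv N n A B T u y) ≤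
        2 * En n A (cv (Wk N B T u) C) - 2 * En n A (mv N n A B T u)) ∧
    (∀ s T : ℕ, s ≤ T → En n A (mv N n A B s u) ≤ En n A (mv N n A B T u)) ∧
    (∀ s T : ℕ, s ≤ T → nm n A (fun y => mv N n A B T u y - mv N n A B s u y) ≤
      (1 + Real.sqrt 2) * Real.sqrt (En n A (mv N n A B T u) - En n A (mv N n A B s u)))

/-- CAT: concatenation -/
def CATStmt : Prop :=
  ∀ (V : Type) [Fintype V] (N : V → Finset V) (n : ℕ) (A ρ : ℝ) (B' B : Finset V) (T' T : ℕ)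
    (u : V) (Q : List V → ℝ),
    (∀ x, (N x).Nonempty) → 0 < A → 0 ≤ ρ → 2 * A * ρ ≤ 1 → B' ⊆ B → T' ≤ T → u ∈ B' →
    Pln (Wk N B' T' u) Q →
    (∀ w ∈ Wk N B' T' u, En n A (mv N n A B (T - w.length) (lst u w)) ≤ ρ) →
    ∃ C : List V → ℝ, Pln (Wk N B T u) C ∧
      nm n A (fun y => cv (Wk N B T u) C y -
        ∑ w ∈ Wk N B' T' u, Q w * mv N n A B (T - w.length) (lst u w) y) ≤
      2 * nm n (2 * A) (cv (Wk N B' T' u) Q)

/-- PAR: parallel lemma -/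
def PARStmt : Prop :=
  ∀ (V : Type) [Fintype V] (N : V → Finset V) (n : ℕ) (A r β a t : ℝ) (B' B : Finset V)
    (T' T : ℕ) (u : V) (Q : List V → ℝ),
    (∀ x, (N x).Nonempty) → 0 < A → 0 < r → 2 * A * r ≤ 1 → B' ⊆ B → T' ≤ T → u ∈ B' →
    (∀ z ∈ B, En n A (mv N n A B T z) ≤ r) →
    0 ≤ β → 0 ≤ a → a ≤ 1 → 0 < t → t ≤ 1 / 4 → β + 2 * a ≤ t →
    (1 - β) * Real.sqrt r ≤ nm n A (mv N n A B T u) →
    Pln (Wk N B' T' u) Q → nm n (2 * A) (cv (Wk N B' T' u) Q) ≤ a * Real.sqrt r →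
    ∑ w ∈ (Wk N B' T' u).filter (fun w => ¬ (lst u w ∈ B ∧ w.length < T ∧
        nm n A (fun y => mv N n A B T (lst u w) y - mv N n A B T u y) ≤
          10 * Real.sqrt t * Real.sqrt r)), Q w ≤ 2 * (β + 2 * a) / t ^ 2

/-- RIC: the set of the good points is rich -/
def RICStmt : Prop :=
  ∀ (V : Type) [Fintype V] (N : V → Finset V) (n : ℕ) (A g : ℝ) (B : Finset V)
    (T : ℕ) (v : V),
    (∀ x, (N x).Nonempty) → 0 < A → v ∈ B → 0 < En n A (mv N n A B T v) →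
    2 * A * En n A (mv N n A B T v) ≤ 1 →
    (∀ z ∈ B, En n A (mv N n A B T z) ≤ En n A (mv N n A B T v)) →
    0 < g → g ≤ 1 →
    (g ^ 4 / 80000) ^ 2 * En n A (mv N n A B T v) ≤
      En n (2 * A) (mv N n (2 * A) (Ug N n A B T v g) T v)

/-- GUA: the set of the good points is guarded -/
def GUAStmt : Prop :=
  ∀ (V : Type) [Fintype V] (N : V → Finset V) (n : ℕ) (A g a t : ℝ) (B : Finset V)
    (T' T : ℕ) (v u : V) (Q : List V → ℝ),
    (∀ x, (N x).Nonempty) → 0 < A → v ∈ B → 0 < En n A (mv N n A B T v) →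
    2 * A * En n A (mv N n A B T v) ≤ 1 →
    (∀ z ∈ B, En n A (mv N n A B T z) ≤ En n A (mv N n A B T v)) →
    0 < g → g ≤ 1 → 0 ≤ a → a ≤ 1 → 0 < t → t ≤ 1 / 4 → g + 2 * a ≤ t →
    T' ≤ T → u ∈ Ug N n A B T v g → Pln (Wk N (Ug N n A B T v g) T' u) Q →
    En n (2 * A) (cv (Wk N (Ug N n A B T v g) T' u) Q) ≤ a ^ 2 * En n A (mv N n A B T v) →
    ∑ w ∈ (Wk N (Ug N n A B T v g) T' u).filter
      (fun w => lst u w ∉ Ug N n A B T v (g + 10 * Real.sqrt t)), Q w ≤ 2 * (g + 2 * a) / t ^ 2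

/-- CND: conditioning of a minimal plan -/
def CNDStmt : Prop :=
  ∀ (V : Type) [Fintype V] (n : ℕ) (A : ℝ) (W : Finset (List V)) (P : List V → ℝ)
    (S : Finset V), 0 ≤ A → MinP n A W P →
    (∑ y ∈ (ch V n).filter (fun y => ∃ x ∈ S, ∃ ys, y = x :: ys),
        A ^ (y.length - 1) * cv W P y ^ 2 ≤
      2 * (∑ w ∈ W.filter (fun w => ∃ x ∈ w, x ∈ S), P w) * En n A (cv W P)) ∧
    (1 ≤ n → ∑ w ∈ W.filter (fun w => ∃ x ∈ w, x ∈ S), P w ≤ S.card * nm n A (cv W P))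

/-- TGT: targets -/
def TGTStmt : Prop :=
  ∀ (V : Type) [Fintype V] (N : V → Finset V) (B : Finset V) (T : ℕ) (u y : V) (ys : List V)
    (P : List V → ℝ), Pln (Wk N B T u) P → 0 < cv (Wk N B T u) P (y :: ys) →
    Low N (∑ x : V, cv (Wk N B T u) P (x :: y :: ys) ^ 2 / cv (Wk N B T u) P (y :: ys) ^ 2) u y

/-- TOT: the total energy of the longer chains -/
def TOTStmt : Prop :=
  ∀ (V : Type) [Fintype V] (N : V → Finset V) (n : ℕ) (A : ℝ) (B : Finset V) (T : ℕ) (u : V)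
    (P : List V → ℝ), 0 < A → T ≤ n → Pln (Wk N B T u) P →
    ∑ y ∈ ch V n, A ^ (y.length - 1) * ∑ x : V, cv (Wk N B T u) P (x :: y) ^ 2 ≤
      En n A (cv (Wk N B T u) P) / A

/-- STP: small steps -/
def STPStmt : Prop :=
  ∀ (V : Type) [Fintype V] (N : V → Finset V) (n d : ℕ) (A ρ : ℝ) (B : Finset V) (T : ℕ)
    (u : V),
    (∀ x, (N x).Nonempty) → 0 < A → 0 ≤ ρ → 2 * A * ρ ≤ 1 → 0 < d → d ≤ (N u).card →
    u ∈ B → (∀ z ∈ B, En n A (mv N n A B T z) ≤ ρ) →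
    nm n A (mv N n A B (T + 1) u) ≤ Real.sqrt ρ + 2 / Real.sqrt d

/-- GRW: growth -/
def GRWStmt : Prop :=
  ∀ (V : Type) [Fintype V] (N : V → Finset V) (n : ℕ) (A : ℝ) (T : ℕ) (u : V),
    (∀ x, (N x).Nonempty) → 0 ≤ A → 1 ≤ n →
    (T : ℝ) ^ 2 ≤ Fintype.card V * En n A (mv N n A univ T u)

/-- LVL: one level of the induction -/
def LVLStmt : Prop :=
  ∀ (V : Type) [Fintype V] (N : V → Finset V) (n : ℕ) (A r g' ε p₀ : ℝ)
    (B U : Finset V) (T : ℕ) (v : V) (j : ℕ) (s : Fin j → V),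
    (∀ x, (N x).Nonempty) → 0 < A → 1 ≤ n → T ≤ n → v ∈ B → r = En n A (mv N n A B T v) →
    0 < r → (∀ z ∈ B, En n A (mv N n A B T z) ≤ r) → 0 < ε → B ⊆ U →
    ∑ w ∈ (Wk N B T v).filter (fun w => lst v w ∉ U), mp n A (Wk N B T v) w ≤ p₀ →
    (∀ i, s i ∈ Ug N n A B T v g') → 0 ≤ g' →
    2 * p₀ + 2 * j * Real.sqrt r + j * (4 * g' ^ 2 + 4 / (A * ε)) < 1 →
    ∃ y : V, y ∈ U ∧ (∀ i, s i ≠ y) ∧ ∀ i, Low N ε (s i) y

/-- IND: the induction; `D j` is the factor for the out-degree -/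
def INDStmt : Prop :=
  ∀ (K : ℕ) (ε : ℝ), 1 ≤ K → 0 < ε → ∃ (smax : ℝ) (D : ℕ → ℝ), 0 < smax ∧
    ∀ j : ℕ, 1 ≤ j → j ≤ K →
    ∀ (V : Type) [Fintype V] (N : V → Finset V) (n d : ℕ) (A s : ℝ) (B U : Finset V) (T : ℕ),
      (∀ x, (N x).Nonempty) → (∀ x, d ≤ (N x).card) → 1 ≤ n → T ≤ n → B ⊆ U →
      0 < A → 0 < s → A * s ≤ 1 → s ≤ smax → D j ≤ d * s →
      (∃ v ∈ B, s ≤ En n A (mv N n A B T v)) →
      (∀ u ∈ B, ∀ T' ≤ T, ∀ Q : List V → ℝ, Pln (Wk N B T' u) Q →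
        En n A (cv (Wk N B T' u) Q) ≤ s →
        ∑ w ∈ (Wk N B T' u).filter (fun w => lst u w ∉ U), Q w ≤ 1 / 16) →
      ∃ f : Fin j → V, Function.Injective f ∧ (∀ i, f i ∈ U) ∧
        ∀ i i' : Fin j, i < i' → Low N ε (f i) (f i')

/-- GRE: disjoint paths -/
def GREStmt : Prop :=
  ∀ (V : Type) [Fintype V] (N : V → Finset V) (k : ℕ) (f : Fin k → V), Function.Injective f →
    (∀ i j : Fin k, i < j → Low N (1 / (16 * ((k : ℝ) + 1) ^ 6)) (f i) (f j)) →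
    Pool.MRW.TT k (fun u w => w ∈ N u)

end Pool.MAD
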