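/-
helper20. MAD, module FIN: Mader's conjecture from IND, GRE, GRW.
-/
import Pool.Agent.H20.MAD.Def

set_option autoImplicit false

namespace Pool.MAD

open Finset
open scoped Classical

theorem t_fin (hI : INDStmt) (hG : GREStmt) (hW : GRWStmt) (k : ℕ) :
    ∃ h : ℕ, ∀ (V : Type) [Fintype V] [Nonempty V] (G : Digraph V),
      (∀ v : V, h ≤ {w : V | w ≠ v ∧ G.Adj v w}.ncard) →
      ∃ f : Fin k → V, Function.Injective f ∧
        ∃ L : Fin k → Fin k → ℕ, ∃ p : Fin k → Fin k → ℕ → V,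
          (∀ i j : Fin k, i < j →
              p i j 0 = f i ∧ p i j (L i j) = f j ∧
              (∀ t : ℕ, t < L i j → G.Adj (p i j t) (p i j (t + 1))) ∧
              (∀ s t : ℕ, s ≤ L i j → t ≤ L i j → p i j s = p i j t → s = t) ∧
              (∀ (t : ℕ) (m : Fin k), 0 < t → t < L i j → p i j t ≠ f m)) ∧
          (∀ i j i' j' : Fin k, i < j → i' < j' → (i ≠ i' ∨ j ≠ j') →
              ∀ s t : ℕ, 0 < s → s < L i j → 0 < t → t < L i' j' →
                p i j s ≠ p i' j' t) := by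
  rcases Nat.eq_zero_or_pos k with rfl | hk
  · refine ⟨0, fun V _ _ G _ => ⟨fun i => i.elim0, fun i => i.elim0, fun _ _ => 0,
      fun i => i.elim0, fun i => i.elim0, fun i => i.elim0⟩⟩
  obtain ⟨smax, D, hs, H⟩ := hI k (1 / (16 * ((k : ℝ) + 1) ^ 6)) hk (by positivity)
  obtain ⟨s, hs0, hs1, hsm⟩ : ∃ s : ℝ, 0 < s ∧ s ≤ 1 ∧ s ≤ smax :=
    ⟨min 1 smax, lt_min one_pos hs, min_le_left _ _, min_le_right _ _⟩
  refine ⟨⌈D k / s⌉₊ + 1, ?_⟩
  intro V _ _ G hdeg
  obtain ⟨N, hN⟩ : ∃ N : V → Finset V, ∀ v w, w ∈ N v ↔ (w ≠ v ∧ G.Adj v w) :=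
    ⟨fun v => univ.filter (fun w => w ≠ v ∧ G.Adj v w), fun v w => by simp⟩
  have hcard : ∀ v, ⌈D k / s⌉₊ + 1 ≤ (N v).card := by
    intro v
    have h1 : {w : V | w ≠ v ∧ G.Adj v w} = (N v : Set V) := by
      ext w; simp [hN]
    have := hdeg v
    rwa [h1, Set.ncard_coe_finset] at this
  have hne : ∀ x, (N x).Nonempty := fun x => by
    rw [← Finset.card_pos]; have := hcard x; omega
  have hV : 1 ≤ Fintype.card V := Fintype.card_pos
  have hVr : (1 : ℝ) ≤ Fintype.card V := by exact_mod_cast hV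
  obtain ⟨v₀⟩ := (inferInstance : Nonempty V)
  obtain ⟨f, hf, -, hL⟩ := H k hk le_rfl V N (Fintype.card V) (⌈D k / s⌉₊ + 1) 1 s univ univ
    (Fintype.card V) hne hcard hV le_rfl (le_refl _) one_pos hs0 (by linarith) hsm
    (by
      have h1 : D k / s ≤ (⌈D k / s⌉₊ : ℝ) := Nat.le_ceil _
      rw [div_le_iff₀ hs0] at h1
      push_cast
      nlinarith)
    ⟨v₀, mem_univ _, by
      have h1 := hW V N (Fintype.card V) 1 (Fintype.card V) v₀ hne zero_le_one hV
      by_contra h2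
      push Not at h2
      nlinarith [sq_nonneg ((Fintype.card V : ℝ) - 1)]⟩
    (by
      intro u _ T' _ Q hQ _
      rw [Finset.filter_eq_empty_iff.2 (by simp)]
      simp)
  have hT := hG V N k f hf hL
  obtain ⟨f', hf', L, p, h1, h2⟩ := hT
  refine ⟨f', hf', L, p, ?_, h2⟩
  intro i j hij
  obtain ⟨a, b, c, d, e⟩ := h1 i j hij
  exact ⟨a, b, fun t ht => ((hN _ _).1 (c t ht)).2, d, e⟩

end Pool.MAD
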