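/-
helper20. MAD, module LVL: one level of the induction.
-/
import Pool.Agent.H20.MAD.IND

set_option autoImplicit false

namespace Pool.MAD

open Finset
open scoped Classical

theorem Low.mono {V : Type} [Fintype V] {N : V → Finset V} {ε ε' : ℝ} {u v : V}
    (h : Low N ε u v) (he : ε ≤ ε') : Low N ε' u v := by
  obtain ⟨ι, S, p, α, h1, h2, h3, h4⟩ := h
  exact ⟨ι, S, p, α, h1, h2, h3, h4.trans he⟩

theorem t_lvl (hCND : CNDStmt) (hTGT : TGTStmt) (hTOT : TOTStmt) (hWLK : WLKStmt)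
    (hHIL : HILStmt) (hMIN : MINStmt) (hCNT : CNTStmt) : LVLStmt := by
  intro V _ N n A r g' ε p₀ B U T v j s hne hA hn hT hv hr hr0 hmax hε hBU hp₀ hs hg' hsum
  obtain ⟨hWne, -, -, -, hWend, -, -⟩ := hWLK V N hne
  obtain ⟨hcnt0, -⟩ := hCNT V
  obtain ⟨hE0, -, -, -, -, -, -, -, -, -⟩ := hHIL V n A hA.le
  have hsB : ∀ i, s i ∈ B := fun i => by
    have := hs i
    unfold Ug at this
    exact (Finset.mem_filter.1 this).1
  obtain ⟨Nv, hNv⟩ : ∃ Nv : List V → ℝ, Nv = cv (Wk N B T v) (mp n A (Wk N B T v)) := ⟨_, rfl⟩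
  obtain ⟨Ni, hNi⟩ : ∃ Ni : Fin j → List V → ℝ,
      ∀ i, Ni i = cv (Wk N B T (s i)) (mp n A (Wk N B T (s i))) := ⟨_, fun _ => rfl⟩
  have hmpv := hMIN V n A _ hA.le (hWne B T v)
  have hmpi := fun i => hMIN V n A _ hA.le (hWne B T (s i))
  have hrv : r = En n A Nv := by rw [hr, mv_of_mem hv, hNv]
  have hcv0 : ∀ (W : Finset (List V)) (P : List V → ℝ), (∀ w, 0 ≤ P w) → ∀ y, 0 ≤ cv W P y := by
    intro W P hP y
    exact Finset.sum_nonneg fun w _ => mul_nonneg (hP w) (hcnt0 y w)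
  have hNv0 : ∀ y, 0 ≤ Nv y := by
    intro y; rw [hNv]; exact hcv0 _ _ hmpv.1.nn y
  have hNi0 : ∀ i y, 0 ≤ Ni i y := by
    intro i y; rw [hNi]; exact hcv0 _ _ (hmpi i).1.nn y
  have hnmv : nm n A Nv = Real.sqrt r := by unfold nm; rw [hrv]
  have hw0 : ∀ y : List V, 0 ≤ A ^ (y.length - 1) := fun y => pow_nonneg hA.le _
  obtain ⟨c₁, hc₁⟩ : ∃ c₁ : List V → Prop,
      c₁ = fun y => ∃ x ∈ univ.filter (fun x => x ∉ U), ∃ ys, y = x :: ys := ⟨_, rfl⟩
  obtain ⟨c₂, hc₂⟩ : ∃ c₂ : List V → Prop,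
      c₂ = fun y => ∃ x ∈ univ.image s, ∃ ys, y = x :: ys := ⟨_, rfl⟩
  -- (b1)
  have hb1 : ∑ y ∈ (ch V n).filter c₁,
      A ^ (y.length - 1) * Nv y ^ 2 ≤ 2 * p₀ * r := by
    have h1 := (hCND V n A (Wk N B T v) (mp n A (Wk N B T v)) (univ.filter (fun x => x ∉ U))
      hA.le hmpv).1
    rw [← hNv] at h1
    refine le_trans (le_of_eq (Finset.sum_congr ?_ fun _ _ => rfl)) (h1.trans ?_)
    · ext y; simp only [Finset.mem_filter, hc₁]
    rw [← hrv]
    refine mul_le_mul_of_nonneg_right ?_ hr0.le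
    refine mul_le_mul_of_nonneg_left (le_trans ?_ hp₀) (by norm_num)
    refine Finset.sum_le_sum_of_subset_of_nonneg ?_ fun w _ _ => hmpv.1.nn w
    intro w hw
    rw [Finset.mem_filter] at hw ⊢
    refine ⟨hw.1, ?_⟩
    obtain ⟨x, hxw, hx⟩ := hw.2
    have hxU : x ∉ U := (Finset.mem_filter.1 hx).2
    rcases hWend B T v w hw.1 x hxw with h | h
    · exact absurd (hBU h) hxU
    · rw [← h]; exact hxU
  -- (b2)
  have hb2 : ∑ y ∈ (ch V n).filter c₂,
      A ^ (y.length - 1) * Nv y ^ 2 ≤ 2 * j * Real.sqrt r * r := by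
    obtain ⟨h1, h2⟩ := hCND V n A (Wk N B T v) (mp n A (Wk N B T v)) (univ.image s) hA.le hmpv
    rw [← hNv] at h1 h2
    refine le_trans (le_of_eq (Finset.sum_congr ?_ fun _ _ => rfl)) (h1.trans ?_)
    · ext y; simp only [Finset.mem_filter, hc₂]
    rw [← hrv]
    refine mul_le_mul_of_nonneg_right ?_ hr0.le
    have h3 := h2 hn
    rw [hnmv] at h3
    have h4 : ((univ.image s).card : ℝ) ≤ j := by
      have := Finset.card_image_le (s := (univ : Finset (Fin j))) (f := s)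
      rw [Finset.card_univ, Fintype.card_fin] at this
      exact_mod_cast this
    have h5 : ((univ.image s).card : ℝ) * Real.sqrt r ≤ j * Real.sqrt r :=
      mul_le_mul_of_nonneg_right h4 (Real.sqrt_nonneg _)
    linarith
  -- (b3)
  have hb3 : ∀ i, ∑ y ∈ (ch V n).filter (fun y => Ni i y < Nv y / 2),
      A ^ (y.length - 1) * Nv y ^ 2 ≤ 4 * g' ^ 2 * r := by
    intro i
    have h1 : nm n A (fun y => Ni i y - Nv y) ≤ g' * nm n A Nv := by
      have := hs i
      unfold Ug at this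
      have := (Finset.mem_filter.1 this).2
      rw [mv_of_mem hv, mv_of_mem (hsB i), ← hNv, ← hNi] at this
      exact this
    have h2 : En n A (fun y => Ni i y - Nv y) ≤ g' ^ 2 * r := by
      have h3 : En n A (fun y => Ni i y - Nv y) = nm n A (fun y => Ni i y - Nv y) ^ 2 := by
        unfold nm; rw [Real.sq_sqrt (hE0 _)]
      rw [h3]
      calc _ ≤ (g' * nm n A Nv) ^ 2 := pow_le_pow_left₀ (Real.sqrt_nonneg _) h1 2
        _ = g' ^ 2 * r := by rw [hnmv, mul_pow, Real.sq_sqrt hr0.le]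
    calc ∑ y ∈ (ch V n).filter (fun y => Ni i y < Nv y / 2), A ^ (y.length - 1) * Nv y ^ 2
        ≤ ∑ y ∈ (ch V n).filter (fun y => Ni i y < Nv y / 2),
            4 * (A ^ (y.length - 1) * (Ni i y - Nv y) ^ 2) := by
          refine Finset.sum_le_sum fun y hy => ?_
          have h3 := (Finset.mem_filter.1 hy).2
          have h4 : Nv y ^ 2 ≤ 4 * (Ni i y - Nv y) ^ 2 := by
            have h5 := hNv0 y
            nlinarith
          calc A ^ (y.length - 1) * Nv y ^ 2
              ≤ A ^ (y.length - 1) * (4 * (Ni i y - Nv y) ^ 2) :=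
                mul_le_mul_of_nonneg_left h4 (hw0 y)
            _ = _ := by ring
      _ ≤ ∑ y ∈ ch V n, 4 * (A ^ (y.length - 1) * (Ni i y - Nv y) ^ 2) := by
          refine Finset.sum_le_sum_of_subset_of_nonneg (Finset.filter_subset _ _) fun y _ _ => ?_
          exact mul_nonneg (by norm_num) (mul_nonneg (hw0 y) (sq_nonneg _))
      _ = 4 * En n A (fun y => Ni i y - Nv y) := by
          unfold En; rw [Finset.mul_sum]
      _ ≤ _ := by linarith
  -- (b4)
  have hb4 : ∀ i, ∑ y ∈ (ch V n).filter (fun y => Nv y / 2 ≤ Ni i y ∧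
        ε * Ni i y ^ 2 < ∑ x : V, Ni i (x :: y) ^ 2),
      A ^ (y.length - 1) * Nv y ^ 2 ≤ 4 / (A * ε) * r := by
    intro i
    have h1 := hTOT V N n A B T (s i) (mp n A (Wk N B T (s i))) hA hT (hmpi i).1
    rw [← hNi] at h1
    have h2 : En n A (Ni i) ≤ r := by
      have := hmax (s i) (hsB i)
      rw [mv_of_mem (hsB i), ← hNi] at this
      exact this
    calc ∑ y ∈ (ch V n).filter (fun y => Nv y / 2 ≤ Ni i y ∧
          ε * Ni i y ^ 2 < ∑ x : V, Ni i (x :: y) ^ 2), A ^ (y.length - 1) * Nv y ^ 2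
        ≤ ∑ y ∈ (ch V n).filter (fun y => Nv y / 2 ≤ Ni i y ∧
          ε * Ni i y ^ 2 < ∑ x : V, Ni i (x :: y) ^ 2),
            4 / ε * (A ^ (y.length - 1) * ∑ x : V, Ni i (x :: y) ^ 2) := by
          refine Finset.sum_le_sum fun y hy => ?_
          obtain ⟨h3, h4⟩ := (Finset.mem_filter.1 hy).2
          have h5 : Nv y ^ 2 ≤ 4 / ε * ∑ x : V, Ni i (x :: y) ^ 2 := by
            have h6 : Nv y ^ 2 ≤ 4 * Ni i y ^ 2 := by
              have h7 := hNv0 y
              nlinarith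
            rw [div_mul_eq_mul_div, le_div_iff₀ hε]
            nlinarith
          calc A ^ (y.length - 1) * Nv y ^ 2
              ≤ A ^ (y.length - 1) * (4 / ε * ∑ x : V, Ni i (x :: y) ^ 2) :=
                mul_le_mul_of_nonneg_left h5 (hw0 y)
            _ = _ := by ring
      _ ≤ ∑ y ∈ ch V n, 4 / ε * (A ^ (y.length - 1) * ∑ x : V, Ni i (x :: y) ^ 2) := by
          refine Finset.sum_le_sum_of_subset_of_nonneg (Finset.filter_subset _ _) fun y _ _ => ?_
          exact mul_nonneg (by positivity)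
            (mul_nonneg (hw0 y) (Finset.sum_nonneg fun x _ => sq_nonneg _))
      _ = 4 / ε * ∑ y ∈ ch V n, A ^ (y.length - 1) * ∑ x : V, Ni i (x :: y) ^ 2 := by
          rw [Finset.mul_sum]
      _ ≤ 4 / ε * (r / A) := by
          refine mul_le_mul_of_nonneg_left ?_ (by positivity)
          exact h1.trans (div_le_div_of_nonneg_right h2 hA.le)
      _ = _ := by field_simp
  -- a good chain
  obtain ⟨y, hych, hy1, hy2, hy3, hy4, hy5⟩ : ∃ y ∈ ch V n, ¬ c₁ y ∧ ¬ c₂ y ∧
      (∀ i, ¬ Ni i y < Nv y / 2) ∧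
      (∀ i, ¬ (Nv y / 2 ≤ Ni i y ∧ ε * Ni i y ^ 2 < ∑ x : V, Ni i (x :: y) ^ 2)) ∧
      Nv y ≠ 0 := by
    by_contra hcon
    push Not at hcon
    have hpt : ∀ y ∈ ch V n, A ^ (y.length - 1) * Nv y ^ 2 ≤
        (if c₁ y then A ^ (y.length - 1) * Nv y ^ 2 else 0) +
        (if c₂ y then A ^ (y.length - 1) * Nv y ^ 2 else 0) +
        ∑ i, ((if Ni i y < Nv y / 2 then A ^ (y.length - 1) * Nv y ^ 2 else 0) +
          (if Nv y / 2 ≤ Ni i y ∧ ε * Ni i y ^ 2 < ∑ x : V, Ni i (x :: y) ^ 2 then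
            A ^ (y.length - 1) * Nv y ^ 2 else 0)) := by
      intro y hy
      have hq : 0 ≤ A ^ (y.length - 1) * Nv y ^ 2 := mul_nonneg (hw0 y) (sq_nonneg _)
      have hi0 : ∀ i, 0 ≤ (if Ni i y < Nv y / 2 then A ^ (y.length - 1) * Nv y ^ 2 else 0) +
          (if Nv y / 2 ≤ Ni i y ∧ ε * Ni i y ^ 2 < ∑ x : V, Ni i (x :: y) ^ 2 then
            A ^ (y.length - 1) * Nv y ^ 2 else 0) := by
        intro i
        refine add_nonneg ?_ ?_ <;> split_ifs <;> first | exact hq | exact le_refl _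
      have hsn : 0 ≤ ∑ i, ((if Ni i y < Nv y / 2 then A ^ (y.length - 1) * Nv y ^ 2 else 0) +
          (if Nv y / 2 ≤ Ni i y ∧ ε * Ni i y ^ 2 < ∑ x : V, Ni i (x :: y) ^ 2 then
            A ^ (y.length - 1) * Nv y ^ 2 else 0)) := Finset.sum_nonneg fun i _ => hi0 i
      by_cases c1 : c₁ y
      · rw [if_pos c1]
        have : 0 ≤ (if c₂ y then A ^ (y.length - 1) * Nv y ^ 2 else 0) := by
          split_ifs
          · exact hq
          · exact le_refl _
        linarith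
      by_cases c2 : c₂ y
      · rw [if_neg c1, if_pos c2]
        linarith
      by_cases c3 : ∀ i, ¬ Ni i y < Nv y / 2
      · by_cases c4 : ∀ i, ¬ (Nv y / 2 ≤ Ni i y ∧ ε * Ni i y ^ 2 < ∑ x : V, Ni i (x :: y) ^ 2)
        · have c5 : Nv y = 0 := by
            refine hcon y hy c1 c2 (by push Not at c3; exact c3) (by push Not at c4; exact c4)
          rw [if_neg c1, if_neg c2, c5]
          rw [c5] at hsn
          simpa using hsn
        · push Not at c4
          obtain ⟨i, h1, h2⟩ := c4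
          rw [if_neg c1, if_neg c2]
          have h3 := Finset.single_le_sum (f := fun i =>
            (if Ni i y < Nv y / 2 then A ^ (y.length - 1) * Nv y ^ 2 else 0) +
            (if Nv y / 2 ≤ Ni i y ∧ ε * Ni i y ^ 2 < ∑ x : V, Ni i (x :: y) ^ 2 then
              A ^ (y.length - 1) * Nv y ^ 2 else 0)) (fun i _ => hi0 i) (Finset.mem_univ i)
          rw [if_neg (c3 i), if_pos ⟨h1, h2⟩] at h3
          linarith
      · push Not at c3
        obtain ⟨i, h1⟩ := c3
        rw [if_neg c1, if_neg c2]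
        have h3 := Finset.single_le_sum (f := fun i =>
            (if Ni i y < Nv y / 2 then A ^ (y.length - 1) * Nv y ^ 2 else 0) +
            (if Nv y / 2 ≤ Ni i y ∧ ε * Ni i y ^ 2 < ∑ x : V, Ni i (x :: y) ^ 2 then
              A ^ (y.length - 1) * Nv y ^ 2 else 0)) (fun i _ => hi0 i) (Finset.mem_univ i)
        rw [if_pos h1] at h3
        have h4 : 0 ≤ (if Nv y / 2 ≤ Ni i y ∧ ε * Ni i y ^ 2 < ∑ x : V, Ni i (x :: y) ^ 2 then
              A ^ (y.length - 1) * Nv y ^ 2 else 0) := by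
          split_ifs
          · exact hq
          · exact le_refl _
        linarith
    have htot := Finset.sum_le_sum hpt
    rw [Finset.sum_add_distrib, Finset.sum_add_distrib, ← Finset.sum_filter, ← Finset.sum_filter,
      Finset.sum_comm] at htot
    have hlast : ∑ i, ∑ y ∈ ch V n,
        ((if Ni i y < Nv y / 2 then A ^ (y.length - 1) * Nv y ^ 2 else 0) +
          (if Nv y / 2 ≤ Ni i y ∧ ε * Ni i y ^ 2 < ∑ x : V, Ni i (x :: y) ^ 2 then
            A ^ (y.length - 1) * Nv y ^ 2 else 0)) ≤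
        j * (4 * g' ^ 2 * r + 4 / (A * ε) * r) := by
      have h1 : ∀ i ∈ (univ : Finset (Fin j)), ∑ y ∈ ch V n,
        ((if Ni i y < Nv y / 2 then A ^ (y.length - 1) * Nv y ^ 2 else 0) +
          (if Nv y / 2 ≤ Ni i y ∧ ε * Ni i y ^ 2 < ∑ x : V, Ni i (x :: y) ^ 2 then
            A ^ (y.length - 1) * Nv y ^ 2 else 0)) ≤ 4 * g' ^ 2 * r + 4 / (A * ε) * r := by
        intro i _
        rw [Finset.sum_add_distrib, ← Finset.sum_filter, ← Finset.sum_filter]
        exact add_le_add (hb3 i) (hb4 i)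
      refine (Finset.sum_le_sum h1).trans ?_
      rw [Finset.sum_const, Finset.card_univ, Fintype.card_fin, nsmul_eq_mul]
    have hr' : ∑ y ∈ ch V n, A ^ (y.length - 1) * Nv y ^ 2 = r := by rw [hrv]; rfl
    rw [hr'] at htot
    have hfin : r ≤ (2 * p₀ + 2 * j * Real.sqrt r + j * (4 * g' ^ 2 + 4 / (A * ε))) * r := by
      refine (htot.trans (add_le_add (add_le_add hb1 hb2) hlast)).trans (le_of_eq ?_)
      ring
    nlinarith
  -- conclusion
  obtain ⟨x, ys, rfl⟩ : ∃ x ys, y = x :: ys := by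
    cases y with
    | nil =>
      unfold ch at hych
      exact absurd rfl (Finset.mem_filter.1 hych).2
    | cons x ys => exact ⟨x, ys, rfl⟩
  refine ⟨x, ?_, ?_, ?_⟩
  · by_contra hx
    rw [hc₁] at hy1
    exact hy1 ⟨x, Finset.mem_filter.2 ⟨mem_univ _, hx⟩, ys, rfl⟩
  · intro i hi
    rw [hc₂] at hy2
    exact hy2 ⟨x, Finset.mem_image.2 ⟨i, mem_univ _, hi⟩, ys, rfl⟩
  · intro i
    have h1 : 0 < Nv (x :: ys) := lt_of_le_of_ne (hNv0 _) (Ne.symm hy5)
    have h2 := hy3 i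
    push Not at h2
    have h3 : 0 < Ni i (x :: ys) := by linarith
    have h4 := hy4 i
    push Not at h4
    have h5 := h4 h2
    have h6 := hTGT V N B T (s i) x ys (mp n A (Wk N B T (s i))) (hmpi i).1
      (by rw [← hNi]; exact h3)
    rw [← hNi] at h6
    refine h6.mono ?_
    rw [← Finset.sum_div, div_le_iff₀ (by positivity)]
    exact h5

end Pool.MAD
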