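/-
helper20. MAD: assembly of the modules.
-/
import Pool.Agent.H20.MAD.FIN
import Pool.Agent.H20.MAD.LVL
import Pool.Agent.H26.MAD.CAT
import Pool.Agent.H28.MAD.CNT
import Pool.Agent.H28.MAD.WLK
import Pool.Agent.H50.MAD.GRE
import Pool.Agent.H67.MAD.CND
import Pool.Agent.H67.MAD.GUA
import Pool.Agent.H74.MAD.PAR
import Pool.Agent.H8.MAD.TOT
import Pool.Agent.H84.MAD.GRW
import Pool.Agent.H84.MAD.RIC
import Pool.Agent.H85.MAD.HIL
import Pool.Agent.H85.MAD.STP
import Pool.Agent.H9.MAD.MON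

set_option autoImplicit false

namespace Pool.MAD

theorem a_cat (hM : MINStmt) : CATStmt := t_cat t_cnt t_wlk t_hil hM
theorem a_mon (hM : MINStmt) : MONStmt := t_mon t_cnt t_wlk t_hil hM
theorem a_par (hM : MINStmt) : PARStmt := t_par (a_cat hM) (a_mon hM) t_hil
theorem a_ric (hM : MINStmt) : RICStmt := t_ric (a_par hM) t_wlk hM
theorem a_gua (hM : MINStmt) : GUAStmt := t_gua (a_par hM) t_hil
theorem a_stp (hM : MINStmt) : STPStmt := t_stp (a_cat hM) t_hil hM t_wlk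
theorem a_lvl (hM : MINStmt) (hT : TGTStmt) : LVLStmt :=
  t_lvl (t_cnd t_cnt) hT (t_tot t_cnt) t_wlk t_hil hM t_cnt
theorem a_ind (hM : MINStmt) (hT : TGTStmt) : INDStmt :=
  t_ind (a_lvl hM hT) (a_ric hM) (a_gua hM) (a_stp hM) hM t_hil t_wlk

/-- everything except MIN and TGT -/
theorem a_fin (hM : MINStmt) (hT : TGTStmt) (k : ℕ) :
    ∃ h : ℕ, ∀ (V : Type) [Fintype V] [Nonempty V] (G : Digraph V),
      (∀ v : V, h ≤ {w : V | w ≠ v ∧ G.Adj v w}.ncard) →
      ∃ f : Fin k → V, Function.Injective f ∧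
        ∃ L : Fin k → Fin k → ℕ, ∃ p : Fin k → Fin k → ℕ → V,
          (∀ i j : Fin k, i < j →
              p i j 0 = f i ∧ p i j (L i j) = f j ∧
              (∀ t : ℕ, t < L i j → G.Adj (p i j t) (p i j (t + 1))) ∧
              (∀ s t : ℕ, s ≤ L i j → t ≤ L i j → p i j s = p i j t → s = t) ∧
              (∀ (t : ℕ) (m : Fin k), 0 < t → t < L i j → p i j t ≠ f m)) ∧
          (∀ i j i' j' : Fin k, i < j → i' < j' → (i ≠ i' ∨ j ≠ j') →
              ∀ s t : ℕ, 0 < s → s < L i j → 0 < t → t < L i' j' →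
                p i j s ≠ p i' j' t) :=
  t_fin (a_ind hM hT) t_gre (t_grw t_cnt t_wlk hM) k

end Pool.MAD
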