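/-
helper20. MAD: Mader's conjecture on subdivisions of transitive tournaments.
-/
import Pool.Agent.H20.MAD.All
import Pool.Agent.H28.MAD.MIN
import Pool.Agent.H9.MAD.TGT

set_option autoImplicit false

namespace Pool.MAD

/-- Mader's conjecture -/
theorem mader (k : ℕ) :
    ∃ h : ℕ, ∀ (V : Type) [Fintype V] [Nonempty V] (G : Digraph V),
      (∀ v : V, h ≤ {w : V | w ≠ v ∧ G.Adj v w}.ncard) →
      ∃ f : Fin k → V, Function.Injective f ∧
        ∃ L : Fin k → Fin k → ℕ, ∃ p : Fin k → Fin k → ℕ → V,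
          (∀ i j : Fin k, i < j →
              p i j 0 = f i ∧ p i j (L i j) = f j ∧
              (∀ t : ℕ, t < L i j → G.Adj (p i j t) (p i j (t + 1))) ∧
              (∀ s t : ℕ, s ≤ L i j → t ≤ L i j → p i j s = p i j t → s = t) ∧
              (∀ (t : ℕ) (m : Fin k), 0 < t → t < L i j → p i j t ≠ f m)) ∧
          (∀ i j i' j' : Fin k, i < j → i' < j' → (i ≠ i' ∨ j ≠ j') →
              ∀ s t : ℕ, 0 < s → s < L i j → 0 < t → t < L i' j' →
                p i j s ≠ p i' j' t) :=
  a_fin t_min (t_tgt t_cnt) k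

end Pool.MAD
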